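import Mathlib
import Pool.Agent.U338.Inv.WH

/-!
# Involutive symmetries of Weyl–Heisenberg SIC fiducials in every dimension

Let `ψ` be a Weyl–Heisenberg SIC fiducial in dimension `d` (even or odd) which is invariant, up to a
phase and a displacement, under `|j⟩ ↦ |k j⟩` with `k ^ 2 = 1`, `k ≠ 1`, where `k - 1` has odd
additive order modulo `d` (automatic for odd `d`). Then `d` is odd, `d + 1 = n ^ 2` is a square, and
`k = n` or `k = - n` modulo `d`: of all the square roots of `1` modulo `d = (n - 1) (n + 1)` only the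
two square roots of `d + 1` occur. Hence, in every odd dimension `d`, a Clifford symmetry of order
two modulo scalars of a fiducial forces `d + 1 = n ^ 2`, acts on the displacement operators as `± n`
up to scalars, and is unique up to scalars unless `d = 3`; no condition on the factorization of `d`
is needed.

Idea of the proof. Split `d = m D` with `k = -1` modulo `m` and `k = 1` modulo `D`, `m` odd. The
overlaps of `ψ` at the `m ^ 2` displacements inverted by `k` are real; multiplied by
`√(d + 1) = n` they form a function `f` on `(ℤ/m)^2` with `f(0) = n`, all other values `± 1`, which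
is an eigenfunction of the symplectic Fourier transform, and is invariant under units by Galois
theory. The function is handled one prime at a time, but now with full prime powers: a sign function
on `G × H` (`H` a `p`-group, `G` of order prime to `p`) invariant under units, all of whose
restrictions to cosets of `G` have Fourier coefficients divisible by the order of `G`, is treated by
a lemma of the type of Ma's lemma on characters of cyclic `p`-groups, combined with a congruence
modulo `4` which is used in place of the squarefree hypothesis.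
-/

set_option autoImplicit false

namespace Pool.Agent.Results.MP_1c78a5_mp.InvolutionsAllDimensions

open Matrix

variable {d : ℕ} [NeZero d]

/-- `ω ^ x` for a residue `x` modulo `d`, where `ω = exp (2 π i / d)` -/
noncomputable def omegaPow (x : ZMod d) : ℂ :=
  Complex.exp (2 * Real.pi * Complex.I * (x.val : ℂ) / (d : ℂ))

/-- the displacement operator `X ^ a Z ^ b`, which maps `|j⟩` to `ω ^ (b j) |j + a⟩` -/
noncomputable def displacement (a b : ZMod d) : Matrix (ZMod d) (ZMod d) ℂ :=
  Matrix.of fun i j => if i = j + a then omegaPow (b * j) else 0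

/-- `ψ` is a Weyl–Heisenberg SIC fiducial: a unit vector with
`|⟨ψ, X ^ a Z ^ b ψ⟩| ^ 2 = 1 / (d + 1)` for all `(a, b) ≠ (0, 0)` -/
def IsFiducial (ψ : ZMod d → ℂ) : Prop :=
  ∑ j, ‖ψ j‖ ^ 2 = 1 ∧ ∀ a b : ZMod d, (a, b) ≠ (0, 0) →
    ‖star ψ ⬝ᵥ (displacement a b *ᵥ ψ)‖ ^ 2 = 1 / ((d : ℝ) + 1)

/-- `U` belongs to the Clifford group: it is unitary and conjugates displacement operators to
displacement operators up to scalars -/
def IsClifford (U : Matrix (ZMod d) (ZMod d) ℂ) : Prop :=
  U ∈ unitaryGroup (ZMod d) ℂ ∧ ∀ a b : ZMod d, ∃ (a' b' : ZMod d) (c : ℂ),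
    U * displacement a b * star U = c • displacement a' b'

/-- `U` is a Clifford symmetry of `ψ` of order two modulo scalars -/
def IsInvolution (ψ : ZMod d → ℂ) (U : Matrix (ZMod d) (ZMod d) ℂ) : Prop :=
  IsClifford U ∧ (∃ l : ℂ, U *ᵥ ψ = l • ψ) ∧ (∃ s : ℂ, U * U = s • 1) ∧ ∀ s : ℂ, U ≠ s • 1

theorem omegaPow_eq (x : ZMod d) : omegaPow x = R503.SIC.e x := by
  unfold omegaPow R503.SIC.e
  rw [ZMod.stdAddChar_apply, ZMod.toCircle_apply]

theorem displacement_eq (a b : ZMod d) : displacement a b = R503.SIC.Dm a b := by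
  ext i j
  simp only [displacement, R503.SIC.Dm, Matrix.of_apply, omegaPow_eq]

theorem overlap_eq (ψ : ZMod d → ℂ) (a b : ZMod d) :
    star ψ ⬝ᵥ (displacement a b *ᵥ ψ) = R503.SIC.ov ψ a b := by
  unfold R503.SIC.ov
  have h1 : ∀ i, (displacement a b *ᵥ ψ) i = omegaPow (b * (i - a)) * ψ (i - a) := by
    intro i
    rw [Matrix.mulVec, dotProduct, Finset.sum_eq_single (i - a)]
    · simp [displacement]
    · intro j _ hj
      simp only [displacement, Matrix.of_apply]
      rw [if_neg (fun h => hj (by rw [h]; ring)), zero_mul]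
    · intro h; exact absurd (Finset.mem_univ _) h
  rw [dotProduct]
  refine Fintype.sum_equiv (Equiv.subRight a) _ _ fun i => ?_
  rw [h1, omegaPow_eq, Pi.star_apply]
  simp

theorem fid_iff (ψ : ZMod d → ℂ) : IsFiducial ψ ↔ R503.SIC.Fid ψ := by
  unfold IsFiducial R503.SIC.Fid
  simp only [overlap_eq]

theorem clifford {U : Matrix (ZMod d) (ZMod d) ℂ} (hU : IsClifford U) :
    IsUnit U ∧ R503.SIC.Nrm U := by
  have h1 : star U * U = 1 := (Matrix.mem_unitaryGroup_iff').1 hU.1
  have h2 : U * star U = 1 := (Matrix.mem_unitaryGroup_iff).1 hU.1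
  refine ⟨⟨⟨U, star U, h2, h1⟩, rfl⟩, fun a b => ?_⟩
  obtain ⟨a', b', c, h⟩ := hU.2 a b
  refine ⟨a', b', c, ?_⟩
  rw [← displacement_eq, ← displacement_eq, ← Matrix.smul_mul, ← h, mul_assoc, h1, mul_one]

/-- **Involutive symmetries in all dimensions.** (1) Let `d ≥ 1` be even or odd and `ψ` a
Weyl–Heisenberg SIC fiducial with `ψ (k j + a) = c ω ^ (b j) ψ j` for all `j`, where `k ^ 2 = 1`,
`k ≠ 1` and the additive order of `k - 1` modulo `d` is odd. Then `d` is odd, `d + 1 = n ^ 2` and
`k = n` or `k = - n` modulo `d`.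
(2) Let `d` be odd and `U` a Clifford symmetry of a fiducial `ψ` of order two modulo scalars. Then
`d + 1 = n ^ 2`, and `U` conjugates `X ^ x Z ^ y` to a multiple of `X ^ (k x) Z ^ (k y)` with `k = n`
or `k = - n`; if `d ≠ 3`, every Clifford symmetry of `ψ` of order two modulo scalars is a multiple
of `U`. -/
theorem result :
    (∀ (d : ℕ) [NeZero d] (ψ : ZMod d → ℂ), IsFiducial ψ →
      ∀ (k a b : ZMod d) (c : ℂ), k ^ 2 = 1 → k ≠ 1 → Odd (addOrderOf (k - 1)) →
      (∀ j, ψ (k * j + a) = c * omegaPow (b * j) * ψ j) →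
      Odd d ∧ ∃ n : ℕ, n ^ 2 = d + 1 ∧ (k = n ∨ k = -n)) ∧
    (∀ (d : ℕ) [NeZero d], Odd d → ∀ ψ : ZMod d → ℂ, IsFiducial ψ →
      ∀ U : Matrix (ZMod d) (ZMod d) ℂ, IsInvolution ψ U →
      (∃ (n : ℕ) (k : ZMod d), n ^ 2 = d + 1 ∧ (k = n ∨ k = -n) ∧
        ∀ x y : ZMod d, ∃ s : ℂ, U * displacement x y * star U = s • displacement (k * x) (k * y)) ∧
      (d ≠ 3 → ∀ V : Matrix (ZMod d) (ZMod d) ℂ, IsInvolution ψ V → ∃ r : ℂ, V = r • U)) := by
  constructor
  · intro d _ ψ hψ k a b c hk hk1 hodd h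
    have hs : R503.SIC.Sym ψ k a b c :=
      ⟨by rw [← pow_two, hk], fun j => by rw [h j, omegaPow_eq]⟩
    exact U338.Inv.dil ((fid_iff ψ).1 hψ) hs hk1 hodd
  · intro d _ hd ψ hψ U hU
    have hf := (fid_iff ψ).1 hψ
    obtain ⟨hC, ⟨l, hl⟩, ⟨s, hs⟩, hns⟩ := hU
    obtain ⟨hunit, hn⟩ := clifford hC
    obtain ⟨k, a, b, c, v, hk1, hsym, hv, hent⟩ :=
      R848.SICP.clifford2 hd hf hunit hn hs hl hns
    refine ⟨?_, ?_⟩
    · obtain ⟨-, n, hn1, hkn⟩ := U338.Inv.dil hf hsym hk1 (U338.Inv.odd_order hd _)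
      refine ⟨n, k, hn1, hkn, fun x y => ⟨R503.SIC.e (b * x - k * y * a), ?_⟩⟩
      have h1 := R848.SICP.conj_disp hsym.1 hent x y
      have h2 : U * star U = 1 := (Matrix.mem_unitaryGroup_iff).1 hC.1
      rw [displacement_eq, displacement_eq, h1, Matrix.smul_mul, Matrix.mul_assoc, h2, mul_one]
    · intro hd3 V hV
      obtain ⟨hC', ⟨l', hl'⟩, ⟨s', hs'⟩, hns'⟩ := hV
      obtain ⟨hunit', hn'⟩ := clifford hC'
      obtain ⟨k', a', b', c', v', hk1', hsym', hv', hent'⟩ :=
        R848.SICP.clifford2 hd hf hunit' hn' hs' hl' hns'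
      obtain ⟨e1, e2, e3⟩ := U338.Inv.uniq hd hd3 hf hsym hk1 hsym' hk1'
      refine ⟨v' / v, ?_⟩
      ext i j
      rw [hent', Matrix.smul_apply, hent, e1, e2, e3, smul_eq_mul]
      by_cases h : i = k * j + a
      · rw [if_pos h, if_pos h, ← mul_assoc, div_mul_cancel₀ _ hv]
      · rw [if_neg h, if_neg h, mul_zero]

end Pool.Agent.Results.MP_1c78a5_mp.InvolutionsAllDimensions
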