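import Mathlib
import Pool.Agent.U900.NS.Info
import Pool.Agent.U900.NS.Prime

/-!
# Approximate Weyl–Heisenberg SICs: every dimension up to a constant, prime dimensions asymptotically

In every dimension `d` there is a unit vector `ψ` whose `d ^ 2` Weyl–Heisenberg translates
`X ^ a Z ^ b ψ` form an informationally complete measurement with all pairwise squared overlaps
less than `96 / (d + 1)`, that is, within a constant factor of the value `1 / (d + 1)` of a
Weyl–Heisenberg SIC. In prime dimensions `d ≥ 5` there is a unit vector for which all these overlaps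
are `(1 + O (d ^ (-1 / 4))) / (d + 1)`.

Idea of the proof: let `p` be a prime with `2 d < p ≤ 4 d` and let `ψ` be the periodization modulo
`d` of the product of the window `sin (π n / (2 d))`, `0 ≤ n ≤ 2 d`, and of the cubic chirp
`exp (2 π i n ^ 3 / (3 p))` with `1 / 3` taken modulo `p`, up to a linear phase. An overlap is a sum
of four smooth quadratic exponential sums modulo `p`, twisted by a frequency in `ℤ / d`, each of
size `O (√ d)` without a logarithm. A small generic perturbation makes all overlaps nonzero.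
For prime `d` one entry of the vector of Alltop, whose overlaps are `0` for `a = 0` and of modulus
`1 / √ d` for `a ≠ 0`, is multiplied by `√ (1 + √ d)`: this gives all overlaps with `a = 0` the right
size and changes the others by a factor `1 + O (d ^ (-1 / 4))` only.
-/

set_option autoImplicit false

namespace Pool.Agent.Results.MP_1c78a5_mp.NearSICEveryDimension

open Matrix Finset
open scoped ComplexConjugate

variable {d : ℕ} [NeZero d]

/-- `ω ^ x` for a residue `x` modulo `d`, where `ω = exp (2 π i / d)` -/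
noncomputable def omegaPow (x : ZMod d) : ℂ :=
  Complex.exp (2 * Real.pi * Complex.I * (x.val : ℂ) / (d : ℂ))

/-- the displacement operator `X ^ a Z ^ b`, which maps `|j⟩` to `ω ^ (b j) |j + a⟩` -/
noncomputable def displacement (a b : ZMod d) : Matrix (ZMod d) (ZMod d) ℂ :=
  Matrix.of fun i j => if i = j + a then omegaPow (b * j) else 0

/-- the vector `X ^ a Z ^ b ψ` for `p = (a, b)` -/
noncomputable def orbit (ψ : ZMod d → ℂ) (p : ZMod d × ZMod d) : ZMod d → ℂ :=
  displacement p.1 p.2 *ᵥ ψ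

/-- the rank-one operator `|φ⟩⟨φ|` -/
noncomputable def rankOne (φ : ZMod d → ℂ) : Matrix (ZMod d) (ZMod d) ℂ :=
  Matrix.vecMulVec φ (star φ)

theorem omegaPow_eq (x : ZMod d) : omegaPow x = R503.SIC.e x := by
  unfold omegaPow R503.SIC.e
  rw [ZMod.stdAddChar_apply, ZMod.toCircle_apply]

theorem orbit_apply (ψ : ZMod d → ℂ) (p : ZMod d × ZMod d) (i : ZMod d) :
    orbit ψ p i = R503.SIC.e (p.2 * (i - p.1)) * ψ (i - p.1) := by
  unfold orbit
  rw [Matrix.mulVec, dotProduct, Finset.sum_eq_single (i - p.1)]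
  · simp [displacement, omegaPow_eq]
  · intro j _ hj
    simp only [displacement, Matrix.of_apply]
    rw [if_neg (fun h => hj (by rw [h]; ring)), zero_mul]
  · intro h; exact absurd (Finset.mem_univ _) h

/-- overlaps of two translates -/
theorem overlap_eq (ψ : ZMod d → ℂ) (p q : ZMod d × ZMod d) :
    ‖star (orbit ψ p) ⬝ᵥ orbit ψ q‖ = ‖R503.SIC.ov ψ (q.1 - p.1) (q.2 - p.2)‖ := by
  have h : star (orbit ψ p) ⬝ᵥ orbit ψ q = R503.SIC.e (-(p.2 * (q.1 - p.1))) *
      R503.SIC.ov ψ (q.1 - p.1) (q.2 - p.2) := by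
    unfold R503.SIC.ov
    rw [dotProduct, Finset.mul_sum]
    refine Fintype.sum_equiv (Equiv.subRight q.1) _ _ fun i => ?_
    rw [Pi.star_apply, orbit_apply, orbit_apply, Equiv.subRight_apply]
    have h1 : i - q.1 + (q.1 - p.1) = i - p.1 := by ring
    rw [h1, ← starRingEnd_apply, map_mul, R503.SIC.conj_e]
    have h2 : R503.SIC.e (-(p.2 * (i - p.1))) * R503.SIC.e (q.2 * (i - q.1)) =
        R503.SIC.e (-(p.2 * (q.1 - p.1))) * R503.SIC.e ((q.2 - p.2) * (i - q.1)) := by
      rw [← R503.SIC.e_add, ← R503.SIC.e_add]; congr 1; ring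
    linear_combination ((starRingEnd ℂ) (ψ (i - p.1)) * ψ (i - q.1)) * h2
  rw [h, norm_mul, R503.SIC.norm_e, one_mul]

theorem rankOne_apply (ψ : ZMod d → ℂ) (p : ZMod d × ZMod d) (i j : ZMod d) :
    rankOne (orbit ψ p) i j = (R503.SIC.e (p.2 * (i - p.1)) * ψ (i - p.1)) *
      conj (R503.SIC.e (p.2 * (j - p.1)) * ψ (j - p.1)) := by
  unfold rankOne
  rw [Matrix.vecMulVec_apply, Pi.star_apply, orbit_apply, orbit_apply]
  rfl

/-- `ψ` is a unit vector and the `d ^ 2` operators `(1 / d) |X ^ a Z ^ b ψ⟩⟨X ^ a Z ^ b ψ|` form an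
informationally complete measurement: their sum is the identity and they are linearly independent. -/
def InformationallyComplete (ψ : ZMod d → ℂ) : Prop :=
  ∑ j, ‖ψ j‖ ^ 2 = 1 ∧
    ∑ p : ZMod d × ZMod d, (1 / (d : ℂ)) • rankOne (orbit ψ p) = 1 ∧
    LinearIndependent ℂ fun p : ZMod d × ZMod d => rankOne (orbit ψ p)

theorem complete {ψ : ZMod d → ℂ} (h1 : ∑ j, ‖ψ j‖ ^ 2 = 1)
    (h3 : ∀ a b : ZMod d, R503.SIC.ov ψ a b ≠ 0) : InformationallyComplete ψ := by
  have hd' : (d : ℂ) ≠ 0 := by exact_mod_cast NeZero.ne d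
  refine ⟨h1, ?_, ?_⟩
  · ext i j
    rw [Matrix.sum_apply]
    have h4 : ∀ p : ZMod d × ZMod d, ((1 / (d : ℂ)) • rankOne (orbit ψ p)) i j =
        (1 / (d : ℂ)) * ((R503.SIC.e (p.2 * (i - p.1)) * ψ (i - p.1)) *
          conj (R503.SIC.e (p.2 * (j - p.1)) * ψ (j - p.1))) := by
      intro p
      rw [Matrix.smul_apply, smul_eq_mul, rankOne_apply]
    rw [Finset.sum_congr rfl fun p _ => h4 p, ← Finset.mul_sum, U900.NS.resolution, h1]
    by_cases hij : i = j
    · rw [if_pos hij, hij, Matrix.one_apply_eq]; field_simp; simp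
    · rw [if_neg hij, Matrix.one_apply_ne hij, mul_zero]
  · rw [Fintype.linearIndependent_iff]
    intro g hg q
    apply U900.NS.info_complete h3 g _ q
    intro i j
    have h4 := congrFun (congrFun hg i) j
    rw [Matrix.sum_apply] at h4
    rw [Matrix.zero_apply] at h4
    rw [← h4]
    refine Finset.sum_congr rfl fun p _ => ?_
    rw [Matrix.smul_apply, smul_eq_mul, rankOne_apply]

theorem ne_zero_of_ne {p q : ZMod d × ZMod d} (h : p ≠ q) : (q.1 - p.1, q.2 - p.2) ≠ (0, 0) := by
  intro h'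
  rw [Prod.mk.injEq, sub_eq_zero, sub_eq_zero] at h'
  exact h (Prod.ext h'.1.symm h'.2.symm)

/-- **Approximate Weyl–Heisenberg SICs in every dimension.** (1) For every `d ≥ 1` there is a unit
vector `ψ` in `ℂ ^ d` such that the `d ^ 2` operators `(1 / d) |D ψ⟩⟨D ψ|`, `D = X ^ a Z ^ b`, form an
informationally complete measurement and `|⟨D ψ, D' ψ⟩| ^ 2 < 96 / (d + 1)` for any two different
displacements `D`, `D'`. (2) For every prime `d ≥ 5` there is such a vector for which
`|(d + 1) |⟨D ψ, D' ψ⟩| ^ 2 - 1| ≤ 7 d ^ (-1 / 4)` for any two different displacements. -/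
theorem result :
    (∀ (d : ℕ) [NeZero d], ∃ ψ : ZMod d → ℂ, InformationallyComplete ψ ∧
      ∀ p q : ZMod d × ZMod d, p ≠ q →
        ‖star (orbit ψ p) ⬝ᵥ orbit ψ q‖ ^ 2 < 96 / ((d : ℝ) + 1)) ∧
    (∀ (d : ℕ) [NeZero d], d.Prime → 5 ≤ d → ∃ ψ : ZMod d → ℂ, InformationallyComplete ψ ∧
      ∀ p q : ZMod d × ZMod d, p ≠ q →
        |((d : ℝ) + 1) * ‖star (orbit ψ p) ⬝ᵥ orbit ψ q‖ ^ 2 - 1| ≤
          7 / (d : ℝ) ^ (1 / 4 : ℝ)) := by
  constructor
  · intro d _
    obtain ⟨ψ, h1, h2, h3⟩ := U900.NS.exists_unit d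
    refine ⟨ψ, complete h1 h3, fun p q hpq => ?_⟩
    rw [overlap_eq]
    exact h2 _ _ (ne_zero_of_ne hpq)
  · intro d _ hp hp5
    obtain ⟨ψ, h1, h2, h3⟩ := U900.NS.exists_prime hp hp5
    refine ⟨ψ, complete h1 h3, fun p q hpq => ?_⟩
    rw [overlap_eq]
    exact h2 _ _ (ne_zero_of_ne hpq)

end Pool.Agent.Results.MP_1c78a5_mp.NearSICEveryDimension
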