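import Mathlib
import Pool.Agent.U200.NT1
import Pool.Agent.U200.WHBase
import Pool.Agent.U200.WHFour
import Pool.Agent.U200.WHExamples

/-!
# Weyl–Heisenberg SIC fiducials whose overlap phases are roots of unity

For a Weyl–Heisenberg SIC fiducial `ψ` in `ℂ ^ d` the normalised overlaps
`√(d+1) ⟨ψ, X ^ a Z ^ b ψ⟩`, `(a, b) ≠ (0, 0)`, have modulus one. In dimensions two and three there
are fiducials for which all of them are roots of unity (of order dividing four, and of order
dividing six). We show that this is an exceptional phenomenon: if all normalised overlaps are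
`n`-th roots of unity then `n` is divisible by `d` times the squarefree part of `d + 1`; if `n`
divides `4 p ^ a` for an odd prime `p` then `d` is `2` or `3`, and if `n` is a power of two then `d`
is `2` or `8`; if `n` has only one odd prime factor then `d` lies in an explicit thin set.

The first part combines `ω ∈ ⟨phases⟩` with the conditions of the file
`MP_d0f9e0_co/RootOfUnityPhases` on arbitrary maximal equiangular tight frames. The elimination of
the dimension four is by reduction modulo a prime above five, where the squared moduli of the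
entries of `√5 · 4 ψ ψ*` become numbers which have no common value.
-/

set_option autoImplicit false

namespace Pool.Agent.Results.MP_1c78a5_mp.RootOfUnityOverlaps

open Matrix Finset

variable {d : ℕ} [NeZero d]

/-- `ω ^ x` for a residue `x` modulo `d`, where `ω = exp (2 π i / d)` -/
noncomputable def omegaPow (x : ZMod d) : ℂ :=
  Complex.exp (2 * Real.pi * Complex.I * (x.val : ℂ) / (d : ℂ))

/-- the displacement operator `X ^ a Z ^ b`, which maps `|j⟩` to `ω ^ (b j) |j + a⟩` -/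
noncomputable def displacement (a b : ZMod d) : Matrix (ZMod d) (ZMod d) ℂ :=
  Matrix.of fun i j => if i = j + a then omegaPow (b * j) else 0

/-- Weyl–Heisenberg SIC fiducial vectors -/
def IsFiducial (ψ : ZMod d → ℂ) : Prop :=
  ∑ j, ‖ψ j‖ ^ 2 = 1 ∧ ∀ a b : ZMod d, (a, b) ≠ (0, 0) →
    ‖star ψ ⬝ᵥ (displacement a b *ᵥ ψ)‖ ^ 2 = 1 / ((d : ℝ) + 1)

/-- the normalised overlap `√(d+1) ⟨ψ, X ^ a Z ^ b ψ⟩`, a number of modulus one for every fiducial
`ψ` and `(a, b) ≠ (0, 0)` -/
noncomputable def overlapPhase (ψ : ZMod d → ℂ) (a b : ZMod d) : ℂ :=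
  ((Real.sqrt ((d : ℝ) + 1) : ℝ) : ℂ) * (star ψ ⬝ᵥ (displacement a b *ᵥ ψ))

theorem omegaPow_eq (x : ZMod d) : omegaPow x = R503.SIC.e x := by
  unfold omegaPow R503.SIC.e
  rw [ZMod.stdAddChar_apply, ZMod.toCircle_apply]

theorem overlap_eq (ψ : ZMod d → ℂ) (a b : ZMod d) :
    star ψ ⬝ᵥ (displacement a b *ᵥ ψ) = R503.SIC.ov ψ a b := by
  unfold R503.SIC.ov
  have h1 : ∀ i, (displacement a b *ᵥ ψ) i = omegaPow (b * (i - a)) * ψ (i - a) := by
    intro i
    rw [Matrix.mulVec, dotProduct, Finset.sum_eq_single (i - a)]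
    · simp [displacement]
    · intro j _ hj
      simp only [displacement, Matrix.of_apply]
      rw [if_neg (fun h => hj (by rw [h]; ring)), zero_mul]
    · intro h; exact absurd (Finset.mem_univ _) h
  rw [dotProduct]
  refine Fintype.sum_equiv (Equiv.subRight a) _ _ fun i => ?_
  rw [h1, omegaPow_eq, Pi.star_apply]
  simp

theorem isFiducial_iff (ψ : ZMod d → ℂ) : IsFiducial ψ ↔ R503.SIC.Fid ψ := by
  unfold IsFiducial R503.SIC.Fid
  simp only [overlap_eq]

theorem overlapPhase_eq (ψ : ZMod d → ℂ) (a b : ZMod d) :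
    overlapPhase ψ a b = U200.WH.chi ψ a b := by
  unfold overlapPhase U200.WH.chi
  rw [overlap_eq]

/-- the divisibility conditions -/
theorem conditions (hd : 3 ≤ d) {ψ : ZMod d → ℂ} (h : R503.SIC.Fid ψ) {n : ℕ} (hn : 0 < n)
    (hchi : ∀ a b, (a, b) ≠ (0, 0) → U200.WH.chi ψ a b ^ n = 1) :
    Even n ∧ ∀ D m, Squarefree D → d + 1 = D * m ^ 2 →
      D ∣ n ∧ (Even D → 8 ∣ n) ∧ (D % 4 = 3 → 4 ∣ n) := by
  have he := U200.WH.e_pow h (by omega) hchi
  have hphase : ∀ i j k, i ≠ j → j ≠ k → k ≠ i →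
      MP_d0f9e0_co.RootOfUnityPhases.phase (U200.WH.orbit ψ) i j k ^ n = 1 := by
    intro i j k hij hjk hki
    have h1 := U200.WH.phase_pow (c := 1) (fun a b hab => by rw [one_mul]; exact hchi a b hab)
      he i j k hij hjk hki
    rwa [one_pow, one_mul] at h1
  have h0 : 1 < d ^ 2 := by nlinarith
  have hij : (⟨0, by omega⟩ : Fin (d ^ 2)) ≠ ⟨1, h0⟩ := by
    intro h; simpa using congrArg Fin.val h
  obtain ⟨h1, -⟩ := MP_d0f9e0_co.RootOfUnityPhases.result d hd (U200.WH.orbit ψ)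
    (U200.WH.isMaxETF h) n hn
  obtain ⟨h2, h3, -, -⟩ := h1 _ _ hij fun k hk1 hk2 => hphase _ _ _ (Ne.symm hk1) hk2 hij.symm
  exact ⟨h2, h3⟩

/-- **Weyl–Heisenberg SIC fiducials whose overlap phases are roots of unity.**
(A) Let `ψ` be a fiducial in dimension `d ≥ 2` and let `n ≥ 1` be such that all normalised overlaps
are `n`-th roots of unity.
(A1) `d` divides `n`. If `d ≥ 3` then `n` is even, and if `d + 1 = D m ^ 2` with `D` squarefree then
`d D` divides `n`, `8` divides `n` if `D` is even, and `4` divides `n` if `D ≡ 3` modulo `4`.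
(A2) If `n` divides `4 p ^ a` for a prime `p` then `d = 2`, or `d = p = 3`, or `d = 8` and `p = 2`.
(A3) If `n` divides `2 ^ k p ^ a` for an odd prime `p` then `d` is `2` or `3`, or a power of `p` of
the form `2 m ^ 2 - 1`, or `4 t (t + 1)` where one of the numbers `t`, `t + 1` is a power of two and
the other one is a power of `p`, or a power of two of the form `p m ^ 2 - 1`.
(B) In dimension two there is a fiducial whose normalised overlaps are fourth roots of unity, and in
dimension three there is one whose normalised overlaps are cube roots of `-1`. -/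
theorem result :
    (∀ (d : ℕ) [NeZero d], 2 ≤ d → ∀ (ψ : ZMod d → ℂ), IsFiducial ψ → ∀ n : ℕ, 0 < n →
      (∀ a b : ZMod d, (a, b) ≠ (0, 0) → overlapPhase ψ a b ^ n = 1) →
      d ∣ n ∧
      (3 ≤ d → Even n ∧ ∀ D m, Squarefree D → d + 1 = D * m ^ 2 →
        d * D ∣ n ∧ (Even D → 8 ∣ n) ∧ (D % 4 = 3 → 4 ∣ n)) ∧
      (∀ p a : ℕ, p.Prime → n ∣ 4 * p ^ a → d = 2 ∨ (d = 3 ∧ p = 3) ∨ (d = 8 ∧ p = 2)) ∧
      (∀ p k a : ℕ, p.Prime → p ≠ 2 → n ∣ 2 ^ k * p ^ a → d = 2 ∨ d = 3 ∨
        (∃ j m, d = p ^ j ∧ d + 1 = 2 * m ^ 2) ∨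
        (∃ t u v, d = 4 * (t * (t + 1)) ∧
          ((t = 2 ^ u ∧ t + 1 = p ^ v) ∨ (t = p ^ v ∧ t + 1 = 2 ^ u))) ∨
        (∃ i m, d = 2 ^ i ∧ d + 1 = p * m ^ 2))) ∧
    (∃ ψ : ZMod 2 → ℂ, IsFiducial ψ ∧
      ∀ a b : ZMod 2, (a, b) ≠ (0, 0) → overlapPhase ψ a b ^ 4 = 1) ∧
    (∃ ψ : ZMod 3 → ℂ, IsFiducial ψ ∧
      ∀ a b : ZMod 3, (a, b) ≠ (0, 0) → (-1 * overlapPhase ψ a b) ^ 3 = 1) := by
  refine ⟨?_, ?_, ?_⟩
  · intro d _ hd ψ hψ n hn h
    have hf := (isFiducial_iff ψ).1 hψ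
    have hchi : ∀ a b, (a, b) ≠ (0, 0) → U200.WH.chi ψ a b ^ n = 1 := fun a b hab => by
      rw [← overlapPhase_eq]; exact h a b hab
    have hdn : d ∣ n := U200.WH.dvd_of_e_pow (U200.WH.e_pow hf hd hchi 1)
    have hcond := fun h3 : 3 ≤ d => conditions h3 hf hn hchi
    refine ⟨hdn, ?_, ?_, ?_⟩
    · intro h3
      obtain ⟨c1, c2⟩ := hcond h3
      refine ⟨c1, fun D m hD hDm => ?_⟩
      obtain ⟨c3, c4, c5⟩ := c2 D m hD hDm
      refine ⟨?_, c4, c5⟩
      refine Nat.Coprime.mul_dvd_of_dvd_of_dvd ?_ hdn c3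
      have h1 : Nat.Coprime d (d + 1) := by simp
      exact Nat.Coprime.coprime_dvd_right (Dvd.intro _ hDm.symm) h1
    · intro p a hp hna
      by_cases h3 : 3 ≤ d
      · obtain ⟨-, c2⟩ := hcond h3
        rcases U200.NT1.four h3 hdn (fun D m hD hDm => ⟨(c2 D m hD hDm).1, (c2 D m hD hDm).2.1⟩)
          hp hna with h4 | ⟨h4, h5⟩ | h4
        · exact Or.inr (Or.inl h4)
        · exfalso
          subst h4 h5
          exact U200.WH.no_four hf hna hchi
        · exact Or.inr (Or.inr h4)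
      · left; omega
    · intro p k a hp hp2 hna
      by_cases h3 : 3 ≤ d
      · obtain ⟨-, c2⟩ := hcond h3
        rcases U200.NT1.classify h3 hdn
          (fun D m hD hDm => ⟨(c2 D m hD hDm).1, (c2 D m hD hDm).2.1⟩) hp hp2 hna with
          h4 | ⟨-, ⟨j, h4⟩, m, h5⟩ | h4 | h4
        · exact Or.inr (Or.inl h4)
        · exact Or.inr (Or.inr (Or.inl ⟨j, m, h4, h5⟩))
        · exact Or.inr (Or.inr (Or.inr (Or.inl h4)))
        · exact Or.inr (Or.inr (Or.inr (Or.inr h4)))
      · left; omega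
  · obtain ⟨ψ, h1, h2⟩ := U200.WH.example_two
    exact ⟨ψ, (isFiducial_iff ψ).2 h1, fun a b hab => by rw [overlapPhase_eq]; exact h2 a b hab⟩
  · obtain ⟨ψ, h1, h2⟩ := U200.WH.example_three
    exact ⟨ψ, (isFiducial_iff ψ).2 h1, fun a b hab => by rw [overlapPhase_eq]; exact h2 a b hab⟩

end Pool.Agent.Results.MP_1c78a5_mp.RootOfUnityOverlaps
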