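import Mathlib
import Pool.Agent.R503.SIC.Base
import Pool.Agent.U200.Wig
import Pool.Agent.U200.WigReal

/-!
# Weyl–Heisenberg SIC fiducials and the discrete Wigner function in odd dimensions

Let `d` be odd. The discrete Wigner function of a unit vector `ψ` in `ℂ ^ d` is the real function
`W (x, k) = (1 / d) ∑ j, ω ^ (2 k j) conj (ψ (x + j)) ψ (x - j)` on the phase space `(ℤ / d) ^ 2`,
which is `1 / d` times the expectation of the displaced parity operator. We show that the fiducials
are exactly the unit vectors with the flattest Wigner function: `∑ W ^ 4` is at least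
`2 / (d ^ 3 (d + 1))` for every unit vector, with equality exactly for the fiducials. Consequently
the Wigner function of a fiducial is nonzero at no fewer than `d (d + 1) / 2` points, it is negative
at a proportion of more than `23` percent of the points (for large `d`) and positive at as many,
and the sum of its absolute values is at least `√((d + 1) / 2)`, where the maximum over all unit
vectors is at most `√d`.

Idea of the proof: two applications of the Parseval identity, in the momentum and in the position,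
give `d ^ 4 ∑ W ^ 4 = ∑ |⟨ψ, X ^ a Z ^ b ψ⟩| ^ 4`. The sign counts follow from the moments of order
one, two and four by suitable polynomial minorants of the indicator functions.
-/

set_option autoImplicit false

namespace Pool.Agent.Results.MP_1c78a5_mp.WignerFlatness

open Matrix Finset

variable {d : ℕ} [NeZero d]

/-- `ω ^ x` for a residue `x` modulo `d`, where `ω = exp (2 π i / d)` -/
noncomputable def omegaPow (x : ZMod d) : ℂ :=
  Complex.exp (2 * Real.pi * Complex.I * (x.val : ℂ) / (d : ℂ))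

/-- the displacement operator `X ^ a Z ^ b`, which maps `|j⟩` to `ω ^ (b j) |j + a⟩` -/
noncomputable def displacement (a b : ZMod d) : Matrix (ZMod d) (ZMod d) ℂ :=
  Matrix.of fun i j => if i = j + a then omegaPow (b * j) else 0

/-- unit vectors -/
def IsUnitVector (ψ : ZMod d → ℂ) : Prop := ∑ j, ‖ψ j‖ ^ 2 = 1

/-- Weyl–Heisenberg SIC fiducial vectors -/
def IsFiducial (ψ : ZMod d → ℂ) : Prop :=
  IsUnitVector ψ ∧ ∀ a b : ZMod d, (a, b) ≠ (0, 0) →
    ‖star ψ ⬝ᵥ (displacement a b *ᵥ ψ)‖ ^ 2 = 1 / ((d : ℝ) + 1)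

/-- the sum `∑ j, ω ^ (2 k j) conj (ψ (x + j)) ψ (x - j)`, which is the expectation
`⟨ψ, X ^ x Z ^ k P (X ^ x Z ^ k)* ψ⟩` of the parity operator `P|j⟩ = |-j⟩` displaced by `(x, k)` -/
noncomputable def displacedParity (ψ : ZMod d → ℂ) (p : ZMod d × ZMod d) : ℂ :=
  ∑ j, omegaPow (2 * p.2 * j) * (star (ψ (p.1 + j)) * ψ (p.1 - j))

/-- the discrete Wigner function at the point `p = (x, k)` of the phase space -/
noncomputable def wigner (ψ : ZMod d → ℂ) (p : ZMod d × ZMod d) : ℝ :=
  (displacedParity ψ p).re / (d : ℝ)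

theorem omegaPow_eq (x : ZMod d) : omegaPow x = R503.SIC.e x := by
  unfold omegaPow R503.SIC.e
  rw [ZMod.stdAddChar_apply, ZMod.toCircle_apply]

theorem overlap_eq (ψ : ZMod d → ℂ) (a b : ZMod d) :
    star ψ ⬝ᵥ (displacement a b *ᵥ ψ) = R503.SIC.ov ψ a b := by
  unfold R503.SIC.ov
  have h1 : ∀ i, (displacement a b *ᵥ ψ) i = omegaPow (b * (i - a)) * ψ (i - a) := by
    intro i
    rw [Matrix.mulVec, dotProduct, Finset.sum_eq_single (i - a)]
    · simp [displacement]
    · intro j _ hj
      simp only [displacement, Matrix.of_apply]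
      rw [if_neg (fun h => hj (by rw [h]; ring)), zero_mul]
    · intro h; exact absurd (Finset.mem_univ _) h
  rw [dotProduct]
  refine Fintype.sum_equiv (Equiv.subRight a) _ _ fun i => ?_
  rw [h1, omegaPow_eq, Pi.star_apply]
  simp

theorem isFiducial_iff (ψ : ZMod d → ℂ) : IsFiducial ψ ↔ R503.SIC.Fid ψ := by
  unfold IsFiducial R503.SIC.Fid IsUnitVector
  simp only [overlap_eq]

theorem displacedParity_eq (ψ : ZMod d → ℂ) (p : ZMod d × ZMod d) :
    displacedParity ψ p = U200.Wig.G ψ p.1 p.2 := by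
  unfold displacedParity U200.Wig.G
  simp only [omegaPow_eq]
  rfl

theorem dpos : (0 : ℝ) < d := by exact_mod_cast Nat.pos_of_ne_zero (NeZero.ne d)

theorem sum_one (hd : Odd d) {ψ : ZMod d → ℂ} (h : IsUnitVector ψ) :
    ∑ p, (displacedParity ψ p).re = d := by
  simp only [displacedParity_eq]
  rw [Fintype.sum_prod_type]
  exact U200.Wig.first_moment hd h

theorem sum_two (hd : Odd d) {ψ : ZMod d → ℂ} (h : IsUnitVector ψ) :
    ∑ p, (displacedParity ψ p).re ^ 2 = d := by
  simp only [displacedParity_eq]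
  rw [Fintype.sum_prod_type, ← U200.Wig.second_moment hd h]
  refine Finset.sum_congr rfl fun x _ => Finset.sum_congr rfl fun k _ => ?_
  rw [U200.Wig.norm_G, sq_abs]

theorem sum_four (hd : Odd d) (ψ : ZMod d → ℂ) :
    ∑ p, (displacedParity ψ p).re ^ 4 = ∑ a, ∑ b, ‖R503.SIC.ov ψ a b‖ ^ 4 := by
  simp only [displacedParity_eq]
  rw [Fintype.sum_prod_type, ← U200.Wig.fourth_moment hd ψ]
  refine Finset.sum_congr rfl fun x _ => Finset.sum_congr rfl fun k _ => ?_
  rw [U200.Wig.norm_G]
  have : ∀ y : ℝ, y ^ 4 = |y| ^ 4 := fun y => by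
    have h1 : |y| ^ 4 = (|y| ^ 2) ^ 2 := by ring
    rw [h1, sq_abs]; ring
  exact this _

theorem wigner_four (hd : Odd d) (ψ : ZMod d → ℂ) :
    ∑ p, wigner ψ p ^ 4 = (∑ a, ∑ b, ‖R503.SIC.ov ψ a b‖ ^ 4) / (d : ℝ) ^ 4 := by
  rw [← sum_four hd, Finset.sum_div]
  refine Finset.sum_congr rfl fun p _ => ?_
  unfold wigner
  rw [div_pow]

/-- **The Wigner function of Weyl–Heisenberg SIC fiducials in odd dimensions.** Let `d` be odd.
(1) For every unit vector `ψ` the Wigner function is real (the sum which defines it is a real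
number), `∑ W ^ 4 = (1 / d ^ 4) ∑ |⟨ψ, X ^ a Z ^ b ψ⟩| ^ 4 ≥ 2 / (d ^ 3 (d + 1))`, with equality if
and only if `ψ` is a fiducial, and `∑ |W| ≤ √d`.
(2) If `ψ` is a fiducial then `W` is nonzero at no fewer than `d (d + 1) / 2` points,
`∑ |W| ≥ √((d + 1) / 2)`, `W ^ 2 ≥ 2 / (d ^ 2 (d + 1))` at some point, `W` is negative at no fewer
than `c d (d + 1 - b √(d + 1))` points and positive at no fewer than `c d (d + 1 + b √(d + 1))`
points, where `c = (2 √3 - 3) / 2 = 0.232…` and `b = 8 / (3 √3) = 1.539…`. -/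
theorem result (d : ℕ) [NeZero d] (hd : Odd d) (ψ : ZMod d → ℂ) (hψ : IsUnitVector ψ) :
    ((∀ p, ((wigner ψ p : ℝ) : ℂ) = displacedParity ψ p / (d : ℂ)) ∧
      ∑ p, wigner ψ p ^ 4 =
        (∑ p : ZMod d × ZMod d, ‖star ψ ⬝ᵥ (displacement p.1 p.2 *ᵥ ψ)‖ ^ 4) / (d : ℝ) ^ 4 ∧
      2 / ((d : ℝ) ^ 3 * (d + 1)) ≤ ∑ p, wigner ψ p ^ 4 ∧
      (∑ p, wigner ψ p ^ 4 = 2 / ((d : ℝ) ^ 3 * (d + 1)) ↔ IsFiducial ψ) ∧
      ∑ p, |wigner ψ p| ≤ Real.sqrt d) ∧
    (IsFiducial ψ →
      (d : ℝ) * (d + 1) / 2 ≤ ({p | wigner ψ p ≠ 0}.ncard : ℝ) ∧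
      Real.sqrt (((d : ℝ) + 1) / 2) ≤ ∑ p, |wigner ψ p| ∧
      (∃ p, 2 / ((d : ℝ) ^ 2 * (d + 1)) ≤ wigner ψ p ^ 2) ∧
      (2 * Real.sqrt 3 - 3) / 2 * (d * (d + 1 - 8 / (3 * Real.sqrt 3) * Real.sqrt (d + 1))) ≤
        ({p | wigner ψ p < 0}.ncard : ℝ) ∧
      (2 * Real.sqrt 3 - 3) / 2 * (d * (d + 1 + 8 / (3 * Real.sqrt 3) * Real.sqrt (d + 1))) ≤
        ({p | 0 < wigner ψ p}.ncard : ℝ)) := by
  have hd0 := dpos (d := d)
  have hmin := U200.Wig.minimal (ψ := ψ) hψ
  have hscale : 2 / ((d : ℝ) ^ 3 * (d + 1)) = 2 * d / ((d : ℝ) + 1) / (d : ℝ) ^ 4 := by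
    field_simp
  refine ⟨⟨?_, ?_, ?_, ?_, ?_⟩, ?_⟩
  · intro p
    unfold wigner
    rw [displacedParity_eq, Complex.ofReal_div, U200.Wig.G_re]
    simp
  · rw [wigner_four hd, Fintype.sum_prod_type]
    simp only [overlap_eq]
  · rw [wigner_four hd, hscale]
    exact div_le_div_of_nonneg_right hmin.1 (by positivity)
  · rw [wigner_four hd, hscale, div_left_inj' (by positivity), hmin.2, isFiducial_iff]
  · have h1 : (∑ p, |wigner ψ p|) ^ 2 ≤ d := by
      have h2 := Finset.sum_mul_sq_le_sq_mul_sq (Finset.univ : Finset (ZMod d × ZMod d))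
        (fun _ => (1 : ℝ)) (fun p => |wigner ψ p|)
      simp only [one_mul, one_pow, Finset.sum_const, Finset.card_univ, Fintype.card_prod,
        ZMod.card, nsmul_eq_mul, mul_one, sq_abs] at h2
      have h3 : ∑ p, wigner ψ p ^ 2 = 1 / d := by
        have : ∀ p, wigner ψ p ^ 2 = (displacedParity ψ p).re ^ 2 / (d : ℝ) ^ 2 := fun p => by
          unfold wigner; rw [div_pow]
        rw [Finset.sum_congr rfl fun p _ => this p, ← Finset.sum_div, sum_two hd hψ]
        field_simp
      rw [h3] at h2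
      refine h2.trans (le_of_eq ?_)
      push_cast
      field_simp
    exact Real.le_sqrt_of_sq_le h1
  · intro hf
    set s : ℝ := Real.sqrt ((d : ℝ) + 1) with hs
    have hs0 : 0 < s := Real.sqrt_pos.mpr (by positivity)
    have hss : s * s = (d : ℝ) + 1 := Real.mul_self_sqrt (by positivity)
    let t : ZMod d × ZMod d → ℝ := fun p => s * (displacedParity ψ p).re
    have ht : ∀ p, t p = (s * d) * wigner ψ p := by
      intro p
      change s * (displacedParity ψ p).re = s * d * ((displacedParity ψ p).re / d)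
      field_simp
    have h1 : ∑ p, t p = s * d := by
      change ∑ p, s * (displacedParity ψ p).re = _
      rw [← Finset.mul_sum, sum_one hd hψ]
    have h2 : ∑ p, t p ^ 2 = d * (d + 1) := by
      change ∑ p, (s * (displacedParity ψ p).re) ^ 2 = _
      simp only [mul_pow]
      rw [← Finset.mul_sum, sum_two hd hψ, pow_two, hss]; ring
    have h4 : ∑ p, t p ^ 4 = 2 * (d * (d + 1)) := by
      change ∑ p, (s * (displacedParity ψ p).re) ^ 4 = _
      simp only [mul_pow]
      rw [← Finset.mul_sum, sum_four hd, hmin.2.2 ((isFiducial_iff ψ).1 hf)]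
      have : s ^ 4 = ((d : ℝ) + 1) ^ 2 := by
        have : s ^ 4 = (s * s) ^ 2 := by ring
        rw [this, hss]
      rw [this]
      field_simp
    have hsd : 0 < s * d := by positivity
    have hneg : ∀ p, t p < 0 ↔ wigner ψ p < 0 := by
      intro p
      rw [ht]
      constructor
      · intro h; by_contra hcon; push Not at hcon; have := mul_nonneg hsd.le hcon; linarith
      · intro h; exact mul_neg_of_pos_of_neg hsd h
    have hpos : ∀ p, -t p < 0 ↔ 0 < wigner ψ p := by
      intro p
      rw [ht]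
      constructor
      · intro h
        by_contra hcon; push Not at hcon
        have := mul_nonneg hsd.le (neg_nonneg.2 hcon)
        linarith
      · intro h; have := mul_pos hsd h; linarith
    refine ⟨?_, ?_, ?_, ?_, ?_⟩
    · have h5 := U200.WigReal.card_ne t h2 h4
      have h6 : {p | t p ≠ 0} = {p | wigner ψ p ≠ 0} := by
        ext p
        simp only [Set.mem_ofPred_eq]
        rw [ht, Ne, mul_eq_zero, not_or]
        exact ⟨fun h => h.2, fun h => ⟨hsd.ne', h⟩⟩
      rwa [h6] at h5
    · have h5 := U200.WigReal.sum_abs t h2 h4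
      have h6 : ∑ p, |t p| = s * d * ∑ p, |wigner ψ p| := by
        rw [Finset.mul_sum]
        refine Finset.sum_congr rfl fun p _ => ?_
        rw [ht, abs_mul, abs_of_pos hsd]
      rw [h6, div_le_iff₀ (by positivity)] at h5
      rw [Real.sqrt_div (by positivity), ← hs, div_le_iff₀ (by positivity)]
      have h7 : s * d * s ≤ s * d * ((∑ p, |wigner ψ p|) * Real.sqrt 2) := by
        have : s * d * s = d * (d + 1) := by rw [← hss]; ring
        rw [this]
        linarith
      exact le_of_mul_le_mul_left h7 hsd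
    · obtain ⟨p, hp⟩ := U200.WigReal.exists_large t (by positivity) h2 h4
      refine ⟨p, ?_⟩
      rw [ht, mul_pow] at hp
      rw [div_le_iff₀ (by positivity)]
      have : (s * d) ^ 2 = (d : ℝ) ^ 2 * (d + 1) := by rw [← hss]; ring
      rw [this] at hp
      linarith
    · have h5 := U200.WigReal.card_neg t h1 h2 h4
      have h6 : {p | t p < 0} = {p | wigner ψ p < 0} := by
        ext p; exact hneg p
      rw [h6] at h5
      refine le_trans (le_of_eq ?_) h5
      ring
    · have h5 := U200.WigReal.card_neg (fun p => -t p) (S := d * (d + 1)) (m := -(s * d))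
        (by rw [Finset.sum_neg_distrib, h1]) (by simp only [neg_sq]; exact h2)
        (by
          have : ∀ p, (-t p) ^ 4 = t p ^ 4 := fun p => by ring
          rw [Finset.sum_congr rfl fun p _ => this p]; exact h4)
      have h6 : {p | -t p < 0} = {p | 0 < wigner ψ p} := by
        ext p; exact hpos p
      rw [h6] at h5
      refine le_trans (le_of_eq ?_) h5
      ring

end Pool.Agent.Results.MP_1c78a5_mp.WignerFlatness
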